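import Pool.Agent.Helper91_PP.Statements

/-!
# MP_9863c1_co, module A : the separation lemma
-/

namespace Helper41_PP

open H91PP H91PP.TriSphere

theorem corner_of_side {S : TriSphere} (t : S.T) (i : Fin 3) (v : S.V)
    (h : S.a (S.s t i) = v ∨ S.b (S.s t i) = v) : ∃ j, S.c t j = v := by
  rcases S.s_ends t i with h1 | h1
  · rcases h with h | h
    · exact ⟨i, h1.1.symm.trans h⟩
    · exact ⟨i + 1, h1.2.symm.trans h⟩
  · rcases h with h | h
    · exact ⟨i + 1, h1.1.symm.trans h⟩
    · exact ⟨i, h1.2.symm.trans h⟩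

theorem corner_l {S : TriSphere} (e : S.E) (v : S.V)
    (h : S.a e = v ∨ S.b e = v) : ∃ j, S.c (S.l e) j = v := by
  obtain ⟨i, hi⟩ := S.l_s e
  apply corner_of_side _ i
  rw [hi]; exact h

theorem corner_r {S : TriSphere} (e : S.E) (v : S.V)
    (h : S.a e = v ∨ S.b e = v) : ∃ j, S.c (S.r e) j = v := by
  obtain ⟨i, hi⟩ := S.r_s e
  apply corner_of_side _ i
  rw [hi]; exact h

theorem const_at {S : TriSphere} {N : Set S.T} {v : S.V}
    (h : ∀ e, (S.a e = v ∨ S.b e = v) → (S.l e ∈ N ↔ S.r e ∈ N))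
    {t t' : S.T} {i i' : Fin 3} (ht : S.c t i = v) (ht' : S.c t' i' = v) :
    t ∈ N → t' ∈ N := by
  intro h1
  by_contra h2
  obtain ⟨e, he, hn⟩ := S.link v N ⟨t, h1, i, ht⟩ ⟨t', h2, i', ht'⟩
  exact hn (h e he)

theorem const_walk {S : TriSphere} {N : Set S.T} {x y : S.V}
    (p : (S.grE Set.univ).Walk x y) :
    (∀ v ∈ p.support, ∀ e, (S.a e = v ∨ S.b e = v) → (S.l e ∈ N ↔ S.r e ∈ N)) →
    ∀ {t t' : S.T} {i i' : Fin 3}, S.c t i = x → S.c t' i' = y → t ∈ N → t' ∈ N := by
  induction p with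
  | nil =>
    intro h t t' i i' ht ht'
    exact const_at (h _ (by simp)) ht ht'
  | @cons u v w hadj p ih =>
    intro h t t' i i' ht ht' h1
    have hadj' := hadj
    obtain ⟨e, _, he⟩ := hadj'
    have hu : S.a e = u ∨ S.b e = u := by
      rcases he with he | he
      · exact Or.inl he.1
      · exact Or.inr he.2
    have hv : S.a e = v ∨ S.b e = v := by
      rcases he with he | he
      · exact Or.inr he.2
      · exact Or.inl he.1
    obtain ⟨j, hj⟩ := corner_l e u hu
    obtain ⟨k, hk⟩ := corner_l e v hv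
    have h2 : S.l e ∈ N := const_at (h u (by simp)) ht hj h1
    exact ih (fun z hz => h z (by simp [hz])) hk ht' h2

theorem s_inj {S : TriSphere} (t : S.T) : Function.Injective (S.s t) := by
  intro i j hij
  have hi := S.s_ends t i
  have hj := S.s_ends t j
  rw [hij] at hi
  have hc := S.c_inj t
  have key : (S.c t i = S.c t j ∧ S.c t (i + 1) = S.c t (j + 1)) ∨
      (S.c t i = S.c t (j + 1) ∧ S.c t (i + 1) = S.c t j) := by
    rcases hi with hi | hi <;> rcases hj with hj | hj
    · exact Or.inl ⟨hi.1.symm.trans hj.1, hi.2.symm.trans hj.2⟩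
    · exact Or.inr ⟨hi.1.symm.trans hj.1, hi.2.symm.trans hj.2⟩
    · exact Or.inr ⟨hi.2.symm.trans hj.2, hi.1.symm.trans hj.1⟩
    · exact Or.inl ⟨hi.2.symm.trans hj.2, hi.1.symm.trans hj.1⟩
  rcases key with ⟨h1, -⟩ | ⟨h1, h2⟩
  · exact hc h1
  · have h3 := hc h1
    have h4 := hc h2
    exfalso
    rw [h3] at h4
    clear hi hj h1 h2 h3 hij
    revert h4
    revert j
    decide

theorem even_side {S : TriSphere} (t : S.T) (v : S.V) : (open Classical in
    (∑ i : Fin 3, if (S.a (S.s t i) = v ∨ S.b (S.s t i) = v) then (1 : ZMod 2) else 0)) = 0 := by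
  classical
  have h : ∀ i, (S.a (S.s t i) = v ∨ S.b (S.s t i) = v) ↔ (S.c t i = v ∨ S.c t (i + 1) = v) := by
    intro i
    rcases S.s_ends t i with h1 | h1
    · rw [h1.1, h1.2]
    · rw [h1.1, h1.2]; exact or_comm
  simp only [h]
  have hc := S.c_inj t
  rw [Fin.sum_univ_three]
  have e1 : (0 : Fin 3) + 1 = 1 := rfl
  have e2 : (1 : Fin 3) + 1 = 2 := rfl
  have e3 : (2 : Fin 3) + 1 = 0 := rfl
  rw [e1, e2, e3]
  have n01 : ¬ (S.c t 0 = v ∧ S.c t 1 = v) := fun hh => by
    have := hc (hh.1.trans hh.2.symm); revert this; decide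
  have n02 : ¬ (S.c t 0 = v ∧ S.c t 2 = v) := fun hh => by
    have := hc (hh.1.trans hh.2.symm); revert this; decide
  have n12 : ¬ (S.c t 1 = v ∧ S.c t 2 = v) := fun hh => by
    have := hc (hh.1.trans hh.2.symm); revert this; decide
  by_cases h0 : S.c t 0 = v <;> by_cases h1 : S.c t 1 = v <;> by_cases h2 : S.c t 2 = v <;>
    simp_all <;> rfl

theorem even_bd (S : TriSphere) (N : Set S.T) (v : S.V) :
    Even (Set.ncard {e | e ∈ S.bd N ∧ (S.a e = v ∨ S.b e = v)}) := by
  classical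
  have := S.fE
  have := S.fT
  have := S.fV
  let _ := Fintype.ofFinite S.E
  let _ := Fintype.ofFinite S.T
  have key : ∀ e : S.E, (∑ p : S.T × Fin 3, if (p.1 ∈ N ∧ S.s p.1 p.2 = e) then (1 : ZMod 2) else 0)
      = if e ∈ S.bd N then 1 else 0 := by
    intro e
    obtain ⟨i, hi⟩ := S.l_s e
    obtain ⟨j, hj⟩ := S.r_s e
    have hne : ((S.l e, i) : S.T × Fin 3) ≠ (S.r e, j) := fun hh => S.lr e (congrArg Prod.fst hh)
    rw [← Finset.sum_subset (Finset.subset_univ ({(S.l e, i), (S.r e, j)} : Finset (S.T × Fin 3)))]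
    · rw [Finset.sum_pair hne]
      simp only [hi, hj, and_true]
      unfold TriSphere.bd
      by_cases h1 : S.l e ∈ N <;> by_cases h2 : S.r e ∈ N <;> simp [h1, h2] <;> rfl
    · rintro ⟨t, k⟩ - hp
      rw [if_neg]
      rintro ⟨-, h2⟩
      apply hp
      simp only at h2
      rcases S.s_lr t k with h3 | h3
      · rw [h2] at h3
        subst h3
        have : k = i := s_inj _ (h2.trans hi.symm)
        simp [this]
      · rw [h2] at h3
        subst h3
        have : k = j := s_inj _ (h2.trans hj.symm)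
        simp [this]
  have h1 : ((Set.ncard {e | e ∈ S.bd N ∧ (S.a e = v ∨ S.b e = v)} : ℕ) : ZMod 2)
      = ∑ e : S.E, if (S.a e = v ∨ S.b e = v) then (if e ∈ S.bd N then (1 : ZMod 2) else 0) else 0 := by
    rw [Set.ncard_eq_toFinset_card', Finset.card_eq_sum_ones]
    push_cast
    rw [Finset.sum_congr (g := fun _ => (1 : ZMod 2))
      (s₂ := Finset.univ.filter (fun e => e ∈ S.bd N ∧ (S.a e = v ∨ S.b e = v)))
      (by ext; simp [and_or_left])
      (fun _ _ => rfl), Finset.sum_filter]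
    apply Finset.sum_congr rfl
    intro e _
    by_cases h1 : e ∈ S.bd N <;> by_cases h2 : (S.a e = v ∨ S.b e = v) <;> simp [h1, h2]
  have h2 : ∑ e : S.E, (if (S.a e = v ∨ S.b e = v) then (if e ∈ S.bd N then (1 : ZMod 2) else 0) else 0)
      = 0 := by
    calc _ = ∑ e : S.E, ∑ p : S.T × Fin 3,
          (if (S.a e = v ∨ S.b e = v) then (if (p.1 ∈ N ∧ S.s p.1 p.2 = e) then (1 : ZMod 2) else 0) else 0) := by
          apply Finset.sum_congr rfl
          intro e _
          by_cases h2 : (S.a e = v ∨ S.b e = v)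
          · simp only [if_pos h2]; rw [key e]
          · simp only [if_neg h2, Finset.sum_const_zero]
      _ = ∑ p : S.T × Fin 3, ∑ e : S.E,
          (if (S.a e = v ∨ S.b e = v) then (if (p.1 ∈ N ∧ S.s p.1 p.2 = e) then (1 : ZMod 2) else 0) else 0) :=
          Finset.sum_comm
      _ = ∑ p : S.T × Fin 3, (if p.1 ∈ N then
            (if (S.a (S.s p.1 p.2) = v ∨ S.b (S.s p.1 p.2) = v) then (1 : ZMod 2) else 0) else 0) := by
          apply Finset.sum_congr rfl
          intro p _
          rw [Finset.sum_eq_single (S.s p.1 p.2)]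
          · by_cases h1 : p.1 ∈ N <;> simp [h1]
          · intro e _ hne
            have : ¬ (p.1 ∈ N ∧ S.s p.1 p.2 = e) := fun hh => hne hh.2.symm
            simp [this]
          · intro hh; exact absurd (Finset.mem_univ _) hh
      _ = ∑ t : S.T, ∑ i : Fin 3, (if t ∈ N then
            (if (S.a (S.s t i) = v ∨ S.b (S.s t i) = v) then (1 : ZMod 2) else 0) else 0) :=
          Fintype.sum_prod_type _
      _ = 0 := by
          apply Finset.sum_eq_zero
          intro t _
          by_cases ht : t ∈ N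
          · simp only [if_pos ht]
            exact even_side t v
          · simp [ht]
  rw [h2] at h1
  exact (ZMod.natCast_eq_zero_iff_even).1 h1

theorem bd_compl {S : TriSphere} (N : Set S.T) : S.bd Nᶜ = S.bd N := by
  ext e
  simp only [TriSphere.bd, Set.mem_setOf_eq, Set.mem_compl_iff]
  tauto

theorem sep (S : TriSphere) : SepStatement S := by
  classical
  intro N A B hA hB hAc hBc hAN hBN
  have := S.fE
  have := S.fT
  have := S.fV
  obtain ⟨x0, hx0⟩ := hA
  obtain ⟨y0, hy0⟩ := hB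
  obtain ⟨tA, iA, htA⟩ := S.vt x0
  obtain ⟨tB, iB, htB⟩ := S.vt y0
  -- no edge of the boundary touches `A` or `B`
  have hAe : ∀ v ∈ A, ∀ e, (S.a e = v ∨ S.b e = v) → e ∉ S.bd N := by
    intro v hv e he
    obtain ⟨j, hj⟩ := corner_l e v he
    obtain ⟨k, hk⟩ := corner_r e v he
    have h1 := hAN (S.l e) j (by rw [hj]; exact hv)
    have h2 := hAN (S.r e) k (by rw [hk]; exact hv)
    simp [TriSphere.bd, h1, h2]
  have hBe : ∀ v ∈ B, ∀ e, (S.a e = v ∨ S.b e = v) → e ∉ S.bd N := by
    intro v hv e he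
    obtain ⟨j, hj⟩ := corner_l e v he
    obtain ⟨k, hk⟩ := corner_r e v he
    have h1 := hBN (S.l e) j (by rw [hj]; exact hv)
    have h2 := hBN (S.r e) k (by rw [hk]; exact hv)
    simp [TriSphere.bd, h1, h2]
  let P : Set (Set S.T) := {N' | S.bd N' ⊆ S.bd N ∧ tA ∈ N' ∧ tB ∉ N'}
  have hPN : N ∈ P := ⟨subset_rfl, hAN tA iA (by rw [htA]; exact hx0), hBN tB iB (by rw [htB]; exact hy0)⟩
  obtain ⟨M, hM, hmin⟩ := Set.exists_min_image P (fun N' => (S.bd N').ncard) P.toFinite ⟨N, hPN⟩
  obtain ⟨hMb, hMA, hMB⟩ := hM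
  have bdmem : ∀ (K : Set S.T) e, e ∉ S.bd K → (S.l e ∈ K ↔ S.r e ∈ K) := by
    intro K e he
    by_contra h
    exact he h
  -- all triangles touching `A` are in `M`
  have hAM : ∀ v ∈ A, ∀ t i, S.c t i = v → t ∈ M := by
    intro v hv t i ht
    obtain ⟨p, hp⟩ := hAc x0 hx0 v hv
    exact const_walk p (fun w hw e he => bdmem M e (fun hh => hAe w (hp w hw) e he (hMb hh))) htA ht hMA
  have hBM : ∀ v ∈ B, ∀ t i, S.c t i = v → t ∉ M := by
    intro v hv t i ht hh
    obtain ⟨p, hp⟩ := hBc v hv y0 hy0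
    exact hMB (const_walk p
      (fun w hw e he => bdmem M e (fun hh => hBe w (hp w hw) e he (hMb hh))) ht htB hh)
  refine ⟨S.bd M, hMb, ?_, ?_⟩
  · intro v w hv hw
    by_contra hnr
    -- the part of the boundary in the component of `v`
    let C : Set S.V := {z | (S.grE (S.bd M)).Reachable v z}
    have hC : ∀ e ∈ S.bd M, (S.a e ∈ C ↔ S.b e ∈ C) := by
      intro e he
      have hadj : (S.grE (S.bd M)).Adj (S.a e) (S.b e) := ⟨e, he, Or.inl ⟨rfl, rfl⟩⟩
      exact ⟨fun h => h.trans hadj.reachable, fun h => h.trans hadj.symm.reachable⟩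
    let Z' : Set S.E := {e | e ∈ S.bd M ∧ S.a e ∈ C}
    have hZ'M : Z' ⊆ S.bd M := fun e he => he.1
    have hev : ∀ u, Even (Set.ncard {e | e ∈ Z' ∧ (S.a e = u ∨ S.b e = u)}) := by
      intro u
      by_cases hu : u ∈ C
      · have : {e | e ∈ Z' ∧ (S.a e = u ∨ S.b e = u)} =
            {e | e ∈ S.bd M ∧ (S.a e = u ∨ S.b e = u)} := by
          ext e
          constructor
          · rintro ⟨h1, h2⟩; exact ⟨h1.1, h2⟩
          · rintro ⟨h1, h2⟩
            refine ⟨⟨h1, ?_⟩, h2⟩
            rcases h2 with h2 | h2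
            · rw [h2]; exact hu
            · rw [hC e h1, h2]; exact hu
        rw [this]
        exact even_bd S M u
      · have : {e | e ∈ Z' ∧ (S.a e = u ∨ S.b e = u)} = ∅ := by
          ext e
          simp only [Set.mem_setOf_eq, Set.mem_empty_iff_false, iff_false]
          rintro ⟨h1, h2⟩
          rcases h2 with h2 | h2
          · exact hu (h2 ▸ h1.2)
          · exact hu (h2 ▸ (hC e h1.1).1 h1.2)
        rw [this]
        simp
    obtain ⟨N0, hN0⟩ := S.hom Z' hev
    -- complement if necessary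
    obtain ⟨N', hN', hBN'⟩ : ∃ N' : Set S.T, S.bd N' = Z' ∧ tB ∉ N' := by
      have h0 : S.bd N0 = Z' := by
        ext e
        exact (hN0 e).symm
      by_cases hb : tB ∈ N0
      · exact ⟨N0ᶜ, by rw [bd_compl, h0], fun h => h hb⟩
      · exact ⟨N0, h0, hb⟩
    have hvZ : ∃ e, e ∈ S.bd M ∧ e ∈ Z' := by
      obtain ⟨e, he, hev'⟩ := hv
      refine ⟨e, he, he, ?_⟩
      have hvC : v ∈ C := SimpleGraph.Reachable.refl v
      rcases hev' with h | h
      · rw [h]; exact hvC
      · rw [hC e he, h]; exact hvC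
    have hwZ : ∃ e, e ∈ S.bd M ∧ e ∉ Z' := by
      obtain ⟨e, he, hew⟩ := hw
      refine ⟨e, he, fun h => ?_⟩
      rcases hew with h' | h'
      · exact hnr (h' ▸ h.2)
      · exact hnr (h' ▸ (hC e he).1 h.2)
    by_cases ha : tA ∈ N'
    · have h1 := hmin N' ⟨by rw [hN']; exact hZ'M.trans hMb, ha, hBN'⟩
      have h2 : (S.bd N').ncard < (S.bd M).ncard := by
        rw [hN']
        apply Set.ncard_lt_ncard _ (Set.toFinite _)
        obtain ⟨e, he, he'⟩ := hwZ
        exact ⟨hZ'M, fun h => he' (h he)⟩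
      omega
    · have hbd : S.bd (symmDiff M N') = {e | e ∈ S.bd M ∧ e ∉ Z'} := by
        ext e
        have h1 : e ∈ S.bd N' ↔ e ∈ Z' := by rw [hN']
        have h2 : e ∈ Z' → e ∈ S.bd M := fun h => hZ'M h
        rw [← h1] at h2
        simp only [Set.mem_setOf_eq, ← h1]
        simp only [TriSphere.bd, Set.mem_setOf_eq, Set.mem_symmDiff] at h2 ⊢
        tauto
      have h1 := hmin (symmDiff M N') ⟨by
          rw [hbd]; exact fun e he => hMb he.1,
        by
          rw [Set.mem_symmDiff]; exact Or.inl ⟨hMA, ha⟩,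
        by
          rw [Set.mem_symmDiff]; rintro (h | h)
          · exact hMB h.1
          · exact hBN' h.1⟩
      have h2 : (S.bd (symmDiff M N')).ncard < (S.bd M).ncard := by
        rw [hbd]
        apply Set.ncard_lt_ncard _ (Set.toFinite _)
        obtain ⟨e, he, he'⟩ := hvZ
        exact ⟨fun e he => he.1, fun h => (h he).2 he'⟩
      omega
  · intro x hx y hy p
    by_contra hno
    push Not at hno
    obtain ⟨t1, i1, ht1⟩ := S.vt x
    obtain ⟨t2, i2, ht2⟩ := S.vt y
    have h1 : t1 ∈ M := hAM x hx t1 i1 ht1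
    have h2 : t2 ∉ M := hBM y hy t2 i2 ht2
    apply h2
    refine const_walk p (fun v hv e he => ?_) ht1 ht2 h1
    apply bdmem
    intro hh
    have h3 := hno v hv e hh
    rcases he with he | he
    · exact h3.1 he
    · exact h3.2 he

end Helper41_PP
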